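import Mathlib
import Pool.Agent.Helper59.NilMinDefs
import Pool.Agent.Helper59.NilMinMain

namespace Pool.Agent.Results.MP_2aa58c_an.NotReconstructible

open Pool.Agent.Helper59.NilMinDefs
open scoped Manifold ContDiff

/-- Two minimal nilsystems, with open sets of asymmetric closure and equal return-time sets,
that are not isomorphic. Both are translations by the same element `τ` of the same
simply connected nilpotent Lie group `G`. -/
theorem result :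
    ∃ (G : Type) (_ : Group G) (_ : TopologicalSpace G) (_ : ChartedSpace (ℝ × ℝ × ℝ) G)
      (Γ₁ Γ₂ : Subgroup G) (τ : G) (U₁ : Set (G ⧸ Γ₁)) (U₂ : Set (G ⧸ Γ₂))
      (x₁ : G ⧸ Γ₁) (x₂ : G ⧸ Γ₂),
      LieGroup 𝓘(ℝ, ℝ × ℝ × ℝ) ⊤ G ∧ IsTopologicalGroup G ∧ PolishSpace G ∧
      ContractibleSpace G ∧ Group.IsNilpotent G ∧
      Hyp Γ₁ τ U₁ ∧ Hyp Γ₂ τ U₂ ∧
      {n : ℤ | τ ^ n • x₁ ∈ U₁} = {n : ℤ | τ ^ n • x₂ ∈ U₂} ∧
      ¬ ∃ φ : (G ⧸ Γ₁) ≃ₜ (G ⧸ Γ₂), ∀ x, φ (τ • x) = τ • φ x :=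
  Pool.Agent.Helper59.NilMin.main

end Pool.Agent.Results.MP_2aa58c_an.NotReconstructible
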